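import Pool.Agent.V11237.Speed

/-!
Optimal multipoint trajectories under discrete acceleration can be forced to move faster than the
square root of the extent of the cities.
-/

set_option autoImplicit false

open Pool.Agent.V11237.Speed

/-- For arbitrarily large `L` the three cities `(0, 0)`, `(L, 0)`, `(L, L)` in the plane, whose extent
is `L`, are such that every optimal trajectory (and there is one) has at some step in some dimension
a speed greater than `1.01 √L`. -/
theorem Pool.Agent.Results.MP_98930f_lc.FasterThanSqrt.result (K : ℤ) :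
    ∃ L : ℤ, K ≤ L ∧
      IsGreatest {m : ℤ | ∃ j j' k, m = |cities L j k - cities L j' k|} L ∧
      (∃ (ℓ : ℕ) (c : ℕ → Conf 2), Optimal (cities L) ℓ c) ∧
      ∀ (ℓ : ℕ) (c : ℕ → Conf 2), Optimal (cities L) ℓ c →
        ∃ i ≤ ℓ, ∃ k, 101 / 100 * √(L : ℝ) < |((c i).2 k : ℝ)| :=
  main K
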